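import Pool.Agent.L5helper16.LG.Defs
import Pool.Agent.L5helper69.SR.Sieve

/-! # A3: the fundamental lemma, upper bound, for the project LG of helper16 (MP_69be96_nt) -/

set_option autoImplicit false

namespace Pool.Agent.L5helper69.LG

open Finset Pool.Agent.L5helper16.LG

theorem a3 : St_A3 := by
  intro η hη
  obtain ⟨C₀, y₀, h⟩ := Pool.Agent.L5helper69.SR.sieve η hη
  refine ⟨C₀ + 1, by positivity, max y₀ 1, fun z y K a hz hzy hK c => ?_⟩
  have hy0 : y₀ ≤ y := (le_max_left _ _).trans (hz.trans hzy)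
  have hy1 : 1 ≤ y := (le_max_right _ _).trans (hz.trans hzy)
  have hyr : (1 : ℝ) ≤ y := by exact_mod_cast hy1
  have hK' : y ^ C₀ ≤ K := by
    have h1 : (y : ℝ) ^ C₀ ≤ K := by
      refine le_trans ?_ hK
      rw [← Real.rpow_natCast]
      exact Real.rpow_le_rpow_of_exponent_le hyr (by linarith)
    exact_mod_cast h1
  have h2 := (h y hy0 (prI z y) (fun p hp => ?_) c a K hK').1
  swap
  · unfold prI at hp
    rw [mem_filter, mem_Ioc] at hp
    exact ⟨hp.2, hp.1.2⟩
  unfold VV
  convert h2 using 3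

end Pool.Agent.L5helper69.LG
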